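import Pool.Agent.H135R2.VS.Defs
import Pool.Agent.H135R2.VS.Final

set_option autoImplicit false

namespace Pool.Agent.Results.MP_6a51b6_co.VertexSplitting

open Pool.Agent.H135R2.VS

/-- **Whiteley's vertex splitting conjecture**, in every dimension: if the finite graph `H` is
globally rigid in `ℝ^d` and `G` is obtained from `H` by a nontrivial `d`-dimensional vertex
splitting, then `G` is globally rigid in `ℝ^d`. -/
theorem result {V W : Type*} [Finite V] (d : ℕ) (H : SimpleGraph V) (G : SimpleGraph W)
    (hH : GloballyRigid d H) (hG : IsNontrivialVertexSplit d H G) : GloballyRigid d G :=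
  vertex_splitting hH hG

end Pool.Agent.Results.MP_6a51b6_co.VertexSplitting
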